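import Pool.Agent.helper74.NL.Spec

/-! Module nl:IP of project nl (MP_70a088_an): invariance of the pairing. -/

set_option autoImplicit false

open Complex Metric Set Filter Topology MeasureTheory MPS Pool.Agent.helper98.ILF

noncomputable section

namespace NLF

lemma IP_root (n : ℕ) (hn : n ≠ 0) (c z : ℂ) (j : ℕ) :
    (om n ^ j * rt n (z - c)) ^ n + c = z := by
  have hn' : (n : ℂ) ≠ 0 := Nat.cast_ne_zero.mpr hn
  have h1 : om n ^ n = 1 := by
    rw [om, ← Complex.exp_nat_mul]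
    rw [mul_div_cancel₀ _ hn']
    exact Complex.exp_two_pi_mul_I
  have h2 : rt n (z - c) ^ n = z - c := by
    rw [rt, one_div]
    exact Complex.cpow_nat_inv_pow _ hn
  rw [mul_pow, ← pow_mul, mul_comm j n, pow_mul, h1, one_pow, one_mul, h2]
  ring

theorem IP (hCB : CB_stmt) (hNB : NB_stmt) : IP_stmt := by
  intro n c μ hn hμ q K hq hK hint
  have hn0 : n ≠ 0 := by omega
  obtain ⟨h1, h2⟩ := hCB n c (by omega) (fun y => μ y * q y) K (hμ.meas.mul hq) hK hint
  have hnull : volume {w : ℂ | ¬ (μ (w ^ n + c) * (starRingEnd ℂ) (fd n w) / fd n w = μ w)} = 0 :=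
    ae_iff.mp hμ.inv
  have hNB' := hNB n c (by omega) _ hnull
  have hne : ∀ᵐ z : ℂ, z ≠ c := by
    rw [ae_iff]
    simp only [ne_eq, not_not, setOf_eq_eq_singleton]
    exact measure_singleton c
  have hae : ∀ᵐ z : ℂ, ∑ j ∈ Finset.range n,
      (fun y => μ y * q y) (om n ^ j * rt n (z - c)) /
        ((‖fd n (om n ^ j * rt n (z - c))‖ ^ 2 : ℝ) : ℂ) = μ z * TQ n c q z := by
    filter_upwards [hNB', hne] with z hz hzc
    rw [TQ, Finset.mul_sum]
    refine Finset.sum_congr rfl fun j hj => ?_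
    have hj' := hz j (Finset.mem_range.mp hj)
    simp only [mem_setOf_eq, not_not] at hj'
    set y := om n ^ j * rt n (z - c) with hy
    have hyz : y ^ n + c = z := IP_root n hn0 c z j
    have hy0 : y ≠ 0 := by
      intro h
      rw [h, zero_pow hn0, zero_add] at hyz
      exact hzc hyz.symm
    have hfd : fd n y ≠ 0 :=
      mul_ne_zero (Nat.cast_ne_zero.mpr hn0) (pow_ne_zero _ hy0)
    have hnorm : ((‖fd n y‖ ^ 2 : ℝ) : ℂ) = fd n y * (starRingEnd ℂ) (fd n y) := by
      rw [Complex.mul_conj, Complex.normSq_eq_norm_sq]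
    have hcj : (starRingEnd ℂ) (fd n y) ≠ 0 := by
      rwa [Ne, map_eq_zero]
    rw [hyz] at hj'
    show μ y * q y / ((‖fd n y‖ ^ 2 : ℝ) : ℂ) = μ z * (q y / fd n y ^ 2)
    rw [hnorm, ← hj']
    field_simp
  have haeK := ae_restrict_of_ae (s := K) hae
  exact ⟨h1.congr haeK, by rw [← h2]; exact (integral_congr_ae haeK).symm⟩

end NLF
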